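import Pool.Agent.H73.GWQ.Stmts

/-!
# Board `gwq` (helper73), row B2Q: local to global, from the left
-/

set_option autoImplicit false

namespace GWQ

theorem b2q_cons {G : Type*} [Group G] (a b : G) (y : Bool) (l : List Bool) :
    GWT.prw a b (y :: l) = (if y then b else a) * GWT.prw a b l := by
  unfold GWT.prw
  rw [List.map_cons, List.prod_cons]

theorem b2q_nil {G : Type*} [Group G] (a b : G) : GWT.prw a b [] = 1 := rfl

theorem B2Q {G V : Type*} [Group G] (D : QM G V) (h4 : H4QStmt D) : B2QStmt D := by
  intro a b k hP x hx l hl
  have hmem : ∀ y : Bool, (if y then b else a) ∈ ({a, b} : Set G) := by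
    intro y
    cases y
    · exact Or.inl rfl
    · exact Or.inr rfl
  induction l generalizing x with
  | nil => exact absurd rfl hl
  | cons y l₂ ih =>
    rw [b2q_cons]
    set y' : G := if y then b else a with hy'
    have hy : y' ∈ ({a, b} : Set G) := hmem y
    have hmul := hP.mul x hx y' hy
    have hk := hP.k_pos
    have hδ := hP.hδ
    by_cases h2 : l₂ = []
    · subst h2
      rw [b2q_nil, mul_one]
      omega
    · have ih2 := ih y' hy h2
      have hlong := hP.long y' hy
      set q : G := GWT.prw a b l₂
      have h := h4 1 (x * y') x (x * (y' * q))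
      have e1 : D.d 1 (x * y') = D.nm (x * y') := rfl
      have e2 : D.d x (x * (y' * q)) = D.nm (y' * q) := by
        have := D.inv x 1 (y' * q)
        rw [mul_one] at this
        exact this
      have e3 : D.d 1 x = D.nm x := rfl
      have e4 : D.d (x * y') (x * (y' * q)) = D.nm q := by
        have := D.inv (x * y') 1 q
        rw [mul_one, mul_assoc] at this
        exact this
      have e5 : D.d 1 (x * (y' * q)) = D.nm (x * (y' * q)) := rfl
      have e6 : D.d (x * y') x = D.nm y' := by
        rw [D.comm]
        have := D.inv x 1 y'
        rw [mul_one] at this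
        exact this
      rw [e1, e2, e3, e4, e5, e6] at h
      omega

end GWQ
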