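import Pool.Agent.H73.GWQ.Stmts2

/-!
# Board `gwq` (helper73), row N5Q: long parallel segments force commensuration
-/

set_option autoImplicit false

open Classical

namespace GWQ

theorem n5q_shift {G V : Type*} [Group G] (D : QM G V) (g x : G) (a b : ℤ) (k : ℕ) (c : ℤ) :
    D.d (g ^ c) ((g ^ (-a) * x * g ^ b) * g ^ k) = D.d (g ^ (a + c)) (x * g ^ (b + k)) := by
  rw [← D.inv (g ^ a) (g ^ c)]
  congr 1
  · rw [zpow_add]
  · rw [zpow_add, zpow_natCast, zpow_neg]
    group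

theorem n5q_nm {G V : Type*} [Group G] (D : QM G V) (g x : G) (a b : ℤ) :
    D.nm (g ^ (-a) * x * g ^ b) = D.d (g ^ a) (x * g ^ b) := by
  have := n5q_shift D g x a b 0 0
  rw [zpow_zero, pow_zero, mul_one, add_zero, Nat.cast_zero, add_zero] at this
  exact this

theorem N5Q {G V : Type*} [Group G] (D : QM G V) (h3 : N3QStmt D) (h4 : N4QStmt D) :
    N5QStmt D := by
  intro g hg hw R
  obtain ⟨n₀, hn₀⟩ := h4 g hg hw (R + BB D g + 4 * D.δ)
  obtain ⟨hY1, hY2⟩ := hn₀ n₀ le_rfl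
  set R₂ := R + BB D g + 4 * D.δ with hR₂
  set Y : Set G := {x : G | D.nm x ≤ R₂ ∧ D.d (g ^ n₀) (x * g ^ n₀) ≤ R₂} ∪
    {x : G | D.nm x ≤ R₂ ∧ D.d (g ^ (-(n₀ : ℤ))) (x * g ^ n₀) ≤ R₂} with hYdef
  have hY : Y.Finite := hY1.union hY2
  set e := hY.toFinset.card with he
  refine ⟨n₀ + e + 1, (e + 1).factorial, Nat.succ_le_of_lt (Nat.factorial_pos _), ?_⟩
  intro x i j s hs ha hb
  set y : ℕ → G := fun m => g ^ (-(i + s * m)) * x * g ^ (j + m) with hy
  have hmem : ∀ m ∈ Finset.range (e + 2), y m ∈ hY.toFinset := by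
    intro m hm
    have hm' : m < e + 2 := Finset.mem_range.1 hm
    have f1 := h3 g hg x i j s (n₀ + e + 1) m R hs (by omega) ha hb
    have f2 := h3 g hg x i j s (n₀ + e + 1) (m + n₀) R hs (by omega) ha hb
    rw [Set.Finite.mem_toFinset]
    have n1 : D.nm (y m) ≤ R₂ := by
      rw [hy]
      simp only
      rw [n5q_nm]
      exact f1
    have n2 : D.d (g ^ (s * n₀)) (y m * g ^ n₀) ≤ R₂ := by
      rw [hy]
      simp only
      rw [n5q_shift]
      have e1 : i + s * (m : ℤ) + s * (n₀ : ℤ) = i + s * ((m + n₀ : ℕ) : ℤ) := by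
        push_cast
        ring
      have e2 : j + (m : ℤ) + (n₀ : ℤ) = j + ((m + n₀ : ℕ) : ℤ) := by
        push_cast
        ring
      rw [e1, e2]
      exact f2
    rcases hs with hs | hs
    · left
      refine ⟨n1, ?_⟩
      rw [hs, one_mul, zpow_natCast] at n2
      exact n2
    · right
      refine ⟨n1, ?_⟩
      rw [hs, neg_one_mul] at n2
      exact n2
  have hcard : hY.toFinset.card < (Finset.range (e + 2)).card := by
    rw [Finset.card_range]
    omega
  obtain ⟨m₁, hm₁, m₂, hm₂, hne, heq⟩ :=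
    Finset.exists_ne_map_eq_of_card_lt_of_maps_to hcard hmem
  -- the relation from `m < m'`
  have key : ∀ m m' : ℕ, m < m' → m' < e + 2 → y m = y m' →
      SemiconjBy x (g ^ (e + 1).factorial) (g ^ (s * ((e + 1).factorial : ℕ))) := by
    intro m m' hlt hm' hyy
    obtain ⟨k, hk⟩ : ∃ k : ℕ, m' = m + k := ⟨m' - m, by omega⟩
    have hk1 : 1 ≤ k := by omega
    have hk2 : k ≤ e + 1 := by omega
    obtain ⟨q, hq⟩ := Nat.dvd_factorial hk1 hk2
    have hsc : SemiconjBy x (g ^ k) (g ^ (s * (k : ℤ))) := by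
      have h : g ^ (-(i + s * (m : ℤ))) * x * g ^ (j + (m : ℤ)) =
          g ^ (-(i + s * (m' : ℤ))) * x * g ^ (j + (m' : ℤ)) := hyy
      rw [hk] at h
      have e1 : -(i + s * ((m + k : ℕ) : ℤ)) = -(i + s * (m : ℤ)) - s * (k : ℤ) := by
        push_cast
        ring
      have e2 : j + ((m + k : ℕ) : ℤ) = (k : ℤ) + (j + (m : ℤ)) := by
        push_cast
        ring
      rw [e1, e2, zpow_sub, zpow_add g (k : ℤ), zpow_natCast g k] at h
      have h' : x = (g ^ (s * (k : ℤ)))⁻¹ * x * g ^ k := by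
        have := congrArg (fun z => g ^ (i + s * (m : ℤ)) * z * (g ^ (j + (m : ℤ)))⁻¹) h
        beta_reduce at this
        rw [zpow_neg] at this
        have a1 : g ^ (i + s * (m : ℤ)) * ((g ^ (i + s * (m : ℤ)))⁻¹ * x * g ^ (j + (m : ℤ))) *
            (g ^ (j + (m : ℤ)))⁻¹ = x := by group
        have a2 : g ^ (i + s * (m : ℤ)) * ((g ^ (i + s * (m : ℤ)))⁻¹ * (g ^ (s * (k : ℤ)))⁻¹ * x *
            (g ^ k * g ^ (j + (m : ℤ)))) * (g ^ (j + (m : ℤ)))⁻¹ =
            (g ^ (s * (k : ℤ)))⁻¹ * x * g ^ k := by group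
        rw [a1, a2] at this
        exact this
      show x * g ^ k = g ^ (s * (k : ℤ)) * x
      conv_rhs => rw [h']
      group
    have hp := hsc.pow_right q
    rw [← pow_mul, ← hq] at hp
    have e3 : (g ^ (s * (k : ℤ))) ^ q = g ^ (s * ((e + 1).factorial : ℕ)) := by
      rw [← zpow_natCast, ← zpow_mul, hq]
      congr 1
      push_cast
      ring
    rw [e3] at hp
    exact hp
  have hfin : SemiconjBy x (g ^ (e + 1).factorial) (g ^ (s * ((e + 1).factorial : ℕ))) := by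
    rcases lt_or_gt_of_ne hne with h | h
    · exact key m₁ m₂ h (Finset.mem_range.1 hm₂) heq
    · exact key m₂ m₁ h (Finset.mem_range.1 hm₁) heq.symm
  rcases hs with hs | hs
  · left
    rw [hs, one_mul, zpow_natCast] at hfin
    exact hfin
  · right
    rw [hs, neg_one_mul] at hfin
    exact hfin

end GWQ
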